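import Pool.Agent.H91.Witt

set_option autoImplicit false

open H91.Witt in
theorem Pool.Agent.Results.MP_e2f694_an.Witt.result :
    ∃ (A B : Type) (_ : Ring A) (_ : Ring B) (_ : HopfAlgebra ℂ A) (_ : HopfAlgebra ℂ B),
    Algebra.FiniteType ℂ A ∧ Algebra.FiniteType ℂ B ∧ IsEmpty (A ≃ₐ[ℂ] B) ∧
    ∃ (f : A →ₐc[ℂ] B) (e : H91.Witt.Env A ≃ₜ H91.Witt.Env B),
      ∀ a, e (H91.Witt.iota A a) = H91.Witt.iota B (f a) :=
  main
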